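import Pool.Agent.Lib.MP_d55432_al.G2.Iface

/-!
# G2, module CH: the Cayley–Hamilton identity of degree seven

The identity is checked on the torus, hence holds for all ad-semisimple elements, hence
everywhere, because the ad-semisimple elements are Zariski dense.
-/

namespace Pool.Agent.Lib.MP_d55432_al.G2.H94

open Matrix LieAlgebra

attribute [local instance 100] LieRing.ofAssociativeRing

variable {K : Type*} [Field K]

/-- All entries of a matrix valued function are polynomial functions. -/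
def EP (F : g2 K → M7 K) : Prop := ∀ i j, (fun X : g2 K => F X i j) ∈ PolyOn K (g2 K)

theorem EP.coe : EP (fun X : g2 K => X.1) := by
  intro i j
  refine Algebra.subset_adjoin ⟨?_, ?_⟩
  · exact
      { toFun := fun X => X.1 i j
        map_add' := fun _ _ => rfl
        map_smul' := fun _ _ => rfl }
  · rfl

theorem EP.one : EP (fun _ : g2 K => (1 : M7 K)) := by
  intro i j
  exact (PolyOn K (g2 K)).algebraMap_mem ((1 : M7 K) i j)

theorem EP.add {F G : g2 K → M7 K} (hF : EP F) (hG : EP G) : EP (fun X => F X + G X) := by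
  intro i j
  exact (PolyOn K (g2 K)).add_mem (hF i j) (hG i j)

theorem EP.sub {F G : g2 K → M7 K} (hF : EP F) (hG : EP G) : EP (fun X => F X - G X) := by
  intro i j
  exact (PolyOn K (g2 K)).sub_mem (hF i j) (hG i j)

theorem EP.mul {F G : g2 K → M7 K} (hF : EP F) (hG : EP G) : EP (fun X => F X * G X) := by
  intro i j
  have h : (fun X : g2 K => (F X * G X) i j) =
      ∑ k, (fun X : g2 K => F X i k) * (fun X : g2 K => G X k j) := by
    funext X
    rw [Finset.sum_apply]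
    rfl
  rw [h]
  exact (PolyOn K (g2 K)).sum_mem fun k _ => (PolyOn K (g2 K)).mul_mem (hF i k) (hG k j)

theorem EP.pow {F : g2 K → M7 K} (hF : EP F) (n : ℕ) : EP (fun X => F X ^ n) := by
  induction n with
  | zero =>
    simp only [pow_zero]
    exact EP.one
  | succ n ih =>
    simp only [pow_succ]
    exact ih.mul hF

theorem EP.smul {c : g2 K → K} {F : g2 K → M7 K} (hc : c ∈ PolyOn K (g2 K)) (hF : EP F) :
    EP (fun X => c X • F X) := by
  intro i j
  exact (PolyOn K (g2 K)).mul_mem hc (hF i j)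

theorem conj_pow' {g h X : M7 K} (H : h * g = 1) (H' : g * h = 1) (n : ℕ) :
    (g * X * h) ^ n = g * X ^ n * h := by
  induction n with
  | zero => rw [pow_zero, pow_zero, Matrix.mul_one, H']
  | succ n ih =>
    rw [pow_succ, pow_succ, ih]
    calc g * X ^ n * h * (g * X * h) = g * X ^ n * (h * g) * X * h := by
          simp only [Matrix.mul_assoc]
      _ = _ := by rw [H, Matrix.mul_one]; simp only [Matrix.mul_assoc]

theorem smul_conj {g h X : M7 K} (c : K) : c • (g * X * h) = g * (c • X) * h := by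
  rw [Matrix.mul_smul, Matrix.smul_mul]

theorem torus [CharZero K] (l m : K) :
    (TT l m) ^ 7 - (l ^ 2 + m ^ 2 + (l + m) ^ 2) • (TT l m) ^ 5 +
      ((l ^ 2 + m ^ 2 + (l + m) ^ 2) ^ 2 / 4) • (TT l m) ^ 3 -
      ((l * m * (l + m)) ^ 2) • (TT l m) = 0 := by
  have h4 : (4 : K) ≠ 0 := by norm_num
  rw [TT, Matrix.diagonal_pow, Matrix.diagonal_pow, Matrix.diagonal_pow, ← Matrix.diagonal_smul,
    ← Matrix.diagonal_smul, ← Matrix.diagonal_smul, Matrix.diagonal_sub, Matrix.diagonal_add,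
    Matrix.diagonal_sub, Matrix.diagonal_eq_zero]
  funext i
  fin_cases i <;> simp <;> field_simp <;> ring

theorem ch [IsAlgClosed K] [CharZero K] (hsimple : SIMPLE_S K) (hsemi : SEMI_S K)
    (hdiag : DIAG_S K) (hinv : INV_S K) : CH_S K := by
  obtain ⟨hi1, -, hi3, hi4, hi5⟩ := hinv
  have : LieAlgebra.IsSimple K (g2 K) := hsimple
  intro X hX
  ext i j
  have hpoly : IsPolyMap K (fun a : Fin 1 → g2 K => a 0) := fun ψ =>
    Algebra.subset_adjoin ⟨0, ψ, rfl⟩
  have hequiv : IsAutEquivariant K (fun a : Fin 1 → g2 K => a 0) := fun _ _ => rfl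
  have hEP : EP (fun X : g2 K => X.1 ^ 7 - s2 X.1 • X.1 ^ 5 + (s2 X.1 ^ 2 / 4) • X.1 ^ 3 -
      s6 X.1 • X.1) := by
    have h2 : (fun X : g2 K => s2 X.1 ^ 2 / 4) ∈ PolyOn K (g2 K) := by
      have h := (PolyOn K (g2 K)).smul_mem ((PolyOn K (g2 K)).pow_mem hi4 2) ((4 : K)⁻¹)
      have e : (fun X : g2 K => s2 X.1 ^ 2 / 4) = (4 : K)⁻¹ • (fun X : g2 K => s2 X.1) ^ 2 := by
        funext X
        change s2 X.1 ^ 2 / 4 = (4 : K)⁻¹ * s2 X.1 ^ 2
        rw [div_eq_inv_mul]
      rw [e]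
      exact h
    exact (((EP.coe.pow 7).sub (EP.smul hi4 (EP.coe.pow 5))).add
      (EP.smul h2 (EP.coe.pow 3))).sub (EP.smul hi5 EP.coe)
  have key := GS.closure_semisimple (fun a : Fin 1 → g2 K => a 0) hpoly hequiv _ (hEP i j) ?_
    (fun _ => ⟨X, hX⟩)
  · exact key
  · intro a ha
    obtain ⟨l, m, g, h, H, e⟩ := hdiag _ (a 0).2 (hsemi _ ha)
    have hC : Cj (TT l m) (a 0).1 := ⟨g, h, H, e⟩
    obtain ⟨e2, e6⟩ := hi1 _ _ hC
    obtain ⟨f2, f6⟩ := hi3 l m
    have hz : (a 0).1 ^ 7 - s2 (a 0).1 • (a 0).1 ^ 5 + (s2 (a 0).1 ^ 2 / 4) • (a 0).1 ^ 3 -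
        s6 (a 0).1 • (a 0).1 = 0 := by
      rw [e2, e6, f2, f6, e, conj_pow' H.2.1 H.1, conj_pow' H.2.1 H.1, conj_pow' H.2.1 H.1,
        smul_conj, smul_conj, smul_conj, ← Matrix.sub_mul, ← Matrix.mul_sub, ← Matrix.add_mul,
        ← Matrix.mul_add, ← Matrix.sub_mul, ← Matrix.mul_sub, torus, Matrix.mul_zero,
        Matrix.zero_mul]
    change ((a 0).1 ^ 7 - s2 (a 0).1 • (a 0).1 ^ 5 + (s2 (a 0).1 ^ 2 / 4) • (a 0).1 ^ 3 -
        s6 (a 0).1 • (a 0).1) i j = 0
    rw [hz]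
    rfl

end Pool.Agent.Lib.MP_d55432_al.G2.H94
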